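import Mathlib

open Set

universe u

namespace Pool.Agent.Results.MP_6d87e8_lc.DeletePoint

/-- A linear order `L` is strongly surjective if for every nonempty suborder `K` of `L` there is a
weakly order-preserving surjection from `L` onto `K`. -/
def StronglySurjective (L : Type u) [LinearOrder L] : Prop :=
  ∀ K : Set L, K.Nonempty → ∃ f : L → K, Monotone f ∧ Function.Surjective f

/-- There is a weakly order-preserving surjection of `L` without `x` onto `L`. -/
def Back (L : Type u) [LinearOrder L] (x : L) : Prop :=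
  ∃ h : {y : L // y ≠ x} → L, Monotone h ∧ Function.Surjective h

variable {L : Type u} [LinearOrder L]

/-- Every linear order maps onto each of its finite nonempty suborders. -/
theorem retract_finite {K : Set L} (hK : K.Finite) (hne : K.Nonempty) :
    ∃ f : L → K, Monotone f ∧ Function.Surjective f := by
  classical
  obtain ⟨b, hb, hbmin⟩ := hK.exists_minimal hne
  have hb' : ∀ k ∈ K, b ≤ k := fun k hk => by
    rcases le_total b k with h | h
    · exact h
    · exact hbmin hk h
  have hex : ∀ y : L, ∃ k ∈ K, (b ≤ y → k ≤ y ∧ ∀ k' ∈ K, k' ≤ y → k' ≤ k) ∧ (¬ b ≤ y → k = b) := by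
    intro y
    by_cases hy : b ≤ y
    · have hfin : (K ∩ Iic y).Finite := hK.subset inter_subset_left
      obtain ⟨k, hk, hkmax⟩ := hfin.exists_maximal ⟨b, hb, hy⟩
      refine ⟨k, hk.1, fun _ => ⟨hk.2, fun k' hk' hk'y => ?_⟩, fun h => absurd hy h⟩
      rcases le_total k' k with h | h
      · exact h
      · exact hkmax ⟨hk', hk'y⟩ h
    · exact ⟨b, hb, fun h => absurd h hy, fun _ => rfl⟩
  choose g hgK hg1 hg2 using hex
  refine ⟨fun y => ⟨g y, hgK y⟩, ?_, ?_⟩
  · intro y z hyz
    show g y ≤ g z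
    by_cases hy : b ≤ y
    · have hz : b ≤ z := hy.trans hyz
      exact (hg1 z hz).2 (g y) (hgK y) ((hg1 y hy).1.trans hyz)
    · rw [hg2 y hy]
      exact hb' _ (hgK z)
  · rintro ⟨k, hk⟩
    refine ⟨k, Subtype.ext ?_⟩
    have h1 := hg1 k (hb' k hk)
    exact le_antisymm h1.1 (h1.2 k hk le_rfl)

/-- If `L` without `x` maps onto `L` and `L` is strongly surjective, so is `L` without `x`. -/
theorem of_back (hL : StronglySurjective L) {x : L} (hx : Back L x) :
    StronglySurjective {y : L // y ≠ x} := by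
  obtain ⟨h, hmono, hsurj⟩ := hx
  intro K hK
  obtain ⟨f, hf, hfs⟩ := hL (Subtype.val '' K) (hK.image _)
  have hmem : ∀ y : {y : L // y ≠ x}, ∃ k : K, (k : {y : L // y ≠ x}).1 = (f (h y)).1 := by
    intro y
    obtain ⟨k, hk, hk'⟩ := (f (h y)).2
    exact ⟨⟨k, hk⟩, hk'⟩
  choose g hg using hmem
  refine ⟨g, ?_, ?_⟩
  · intro y z hyz
    show ((g y : {y : L // y ≠ x}) : L) ≤ ((g z : {y : L // y ≠ x}) : L)
    rw [hg y, hg z]
    exact hf (hmono hyz)
  · rintro ⟨k, hk⟩
    obtain ⟨w, hw⟩ := hfs ⟨k.1, k, hk, rfl⟩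
    obtain ⟨y, hy⟩ := hsurj w
    refine ⟨y, Subtype.ext (Subtype.ext ?_)⟩
    rw [hg y, hy, hw]

/-- Moving the deleted point one step. -/
theorem back_of_covBy {a b : L} (hab : a ⋖ b) : Back L a ↔ Back L b := by
  classical
  constructor
  · rintro ⟨h, hmono, hsurj⟩
    let s : {y : L // y ≠ b} → {y : L // y ≠ a} := fun y =>
      if hy : y.1 = a then ⟨b, hab.lt.ne'⟩ else ⟨y.1, hy⟩
    have hs : Monotone s := by
      intro y z hyz
      have hyz' : y.1 ≤ z.1 := hyz
      by_cases hy : y.1 = a <;> by_cases hz : z.1 = a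
      · simp only [s, hy, hz, dif_pos, le_refl]
      · simp only [s, hy, hz, dif_pos, dif_neg, not_false_eq_true, Subtype.mk_le_mk]
        have h1 : a < z.1 := lt_of_le_of_ne (hy ▸ hyz') (Ne.symm hz)
        exact hab.ge_of_gt h1
      · simp only [s, hy, hz, dif_pos, dif_neg, not_false_eq_true, Subtype.mk_le_mk]
        exact (hz ▸ hyz').trans hab.le
      · simp only [s, hy, hz, dif_neg, not_false_eq_true, Subtype.mk_le_mk]
        exact hyz'
    have hss : Function.Surjective s := by
      rintro ⟨w, hw⟩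
      by_cases hwb : w = b
      · refine ⟨⟨a, hab.lt.ne⟩, ?_⟩
        simp only [s, dif_pos, hwb]
      · exact ⟨⟨w, hwb⟩, by simp only [s, hw, dif_neg, not_false_eq_true]⟩
    exact ⟨h ∘ s, hmono.comp hs, hsurj.comp hss⟩
  · rintro ⟨h, hmono, hsurj⟩
    let s : {y : L // y ≠ a} → {y : L // y ≠ b} := fun y =>
      if hy : y.1 = b then ⟨a, hab.lt.ne⟩ else ⟨y.1, hy⟩
    have hs : Monotone s := by
      intro y z hyz
      have hyz' : y.1 ≤ z.1 := hyz
      by_cases hy : y.1 = b <;> by_cases hz : z.1 = b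
      · simp only [s, hy, hz, dif_pos, le_refl]
      · simp only [s, hy, hz, dif_pos, dif_neg, not_false_eq_true, Subtype.mk_le_mk]
        exact hab.le.trans (hy ▸ hyz')
      · simp only [s, hy, hz, dif_pos, dif_neg, not_false_eq_true, Subtype.mk_le_mk]
        have h1 : y.1 < b := lt_of_le_of_ne (hz ▸ hyz') hy
        exact hab.le_of_lt h1
      · simp only [s, hy, hz, dif_neg, not_false_eq_true, Subtype.mk_le_mk]
        exact hyz'
    have hss : Function.Surjective s := by
      rintro ⟨w, hw⟩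
      by_cases hwa : w = a
      · refine ⟨⟨b, hab.lt.ne'⟩, ?_⟩
        simp only [s, dif_pos, hwa]
      · exact ⟨⟨w, hwa⟩, by simp only [s, hw, dif_neg, not_false_eq_true]⟩
    exact ⟨h ∘ s, hmono.comp hs, hsurj.comp hss⟩

/-- Moving the deleted point along a finite interval. -/
theorem back_of_finite_Icc (n : ℕ) : ∀ a b : L, a ≤ b → (Icc a b).Finite →
    (Icc a b).ncard = n → (Back L a ↔ Back L b) := by
  induction n using Nat.strong_induction_on with
  | _ n ih =>
    intro a b hab hfin hn
    rcases hab.eq_or_lt with rfl | hlt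
    · rfl
    · have hfin' : (Ioc a b).Finite := hfin.subset Ioc_subset_Icc_self
      obtain ⟨c, hc, hcmin⟩ := hfin'.exists_minimal ⟨b, hlt, le_rfl⟩
      have hcov : a ⋖ c := by
        refine ⟨hc.1, fun d had hdc => ?_⟩
        exact absurd (hcmin ⟨had, hdc.le.trans hc.2⟩ hdc.le) (not_le.2 hdc)
      have hsub : Icc c b ⊂ Icc a b := by
        refine ⟨Icc_subset_Icc_left hc.1.le, fun h => ?_⟩
        exact absurd (h ⟨le_rfl, hab⟩).1 (not_le.2 hc.1)
      rw [back_of_covBy hcov]
      exact ih _ (hn ▸ Set.ncard_lt_ncard hsub hfin) c b hc.2 (hfin.subset hsub.1) rfl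

/-- If infinitely many points above `x` are at finite distance, `L` without `x` maps onto `L`. -/
theorem back_of_infinite (x : L) (hinf : {y : L | x < y ∧ (Icc x y).Finite}.Infinite) :
    Back L x := by
  classical
  set S : Set L := {y : L | x < y ∧ (Icc x y).Finite} with hS
  have hpred : ∀ y ∈ S, ∃ p, p ⋖ y ∧ x ≤ p := by
    rintro y ⟨hxy, hfin⟩
    have hfin' : (Ico x y).Finite := hfin.subset Ico_subset_Icc_self
    obtain ⟨p, hp, hpmax⟩ := hfin'.exists_maximal ⟨x, le_rfl, hxy⟩
    refine ⟨p, ⟨hp.2, fun d hpd hdy => ?_⟩, hp.1⟩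
    exact absurd (hpmax ⟨hp.1.trans hpd.le, hdy⟩ hpd.le) (not_le.2 hpd)
  choose! p hp1 hp2 using hpred
  let h : {y : L // y ≠ x} → L := fun y => if y.1 ∈ S then p y.1 else y.1
  refine ⟨h, ?_, ?_⟩
  · intro y z hyz
    have hyz' : y.1 ≤ z.1 := hyz
    show (if y.1 ∈ S then p y.1 else y.1) ≤ (if z.1 ∈ S then p z.1 else z.1)
    rcases hyz'.eq_or_lt with he | hlt
    · rw [he]
    by_cases hy : y.1 ∈ S <;> by_cases hz : z.1 ∈ S
    · rw [if_pos hy, if_pos hz]
      exact (hp1 _ hy).le.trans ((hp1 _ hz).le_of_lt hlt)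
    · rw [if_pos hy, if_neg hz]
      exact (hp1 _ hy).le.trans hyz'
    · rw [if_neg hy, if_pos hz]
      exact (hp1 _ hz).le_of_lt hlt
    · rw [if_neg hy, if_neg hz]
      exact hyz'
  · intro w
    -- the successor of a point of `S ∪ {x}`
    have hsucc : ∀ w, x ≤ w → (Icc x w).Finite → ∃ s ∈ S, w ⋖ s := by
      intro w hxw hfin
      obtain ⟨z, hzS, hz⟩ := hinf.exists_notMem_finite hfin
      have hwz : w < z := by
        by_contra hcon
        exact hz ⟨hzS.1.le, not_lt.1 hcon⟩
      have hfin' : (Ioc w z).Finite := hzS.2.subset (Ioc_subset_Icc_self.trans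
        (Icc_subset_Icc_left hxw))
      obtain ⟨s, hs, hsmin⟩ := hfin'.exists_minimal ⟨z, hwz, le_rfl⟩
      refine ⟨s, ⟨hxw.trans_lt hs.1, hzS.2.subset (Icc_subset_Icc_right hs.2)⟩, hs.1,
        fun d hwd hds => ?_⟩
      exact absurd (hsmin ⟨hwd, hds.le.trans hs.2⟩ hds.le) (not_le.2 hds)
    by_cases hw : x ≤ w ∧ (Icc x w).Finite
    · obtain ⟨s, hsS, hws⟩ := hsucc w hw.1 hw.2
      refine ⟨⟨s, (hsS.1).ne'⟩, ?_⟩
      show (if s ∈ S then p s else s) = w
      rw [if_pos hsS]
      have h1 : p s ≤ w := by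
        by_contra hcon
        exact hws.2 (not_le.1 hcon) (hp1 _ hsS).lt
      have h2 : w ≤ p s := (hp1 _ hsS).le_of_lt hws.lt
      exact le_antisymm h1 h2
    · have hwx : w ≠ x := by
        rintro rfl
        exact hw ⟨le_rfl, by simp⟩
      refine ⟨⟨w, hwx⟩, ?_⟩
      show (if w ∈ S then p w else w) = w
      rw [if_neg fun hmem => hw ⟨hmem.1.le, hmem.2⟩]

theorem back_of_dual {x : L} (hx : Back Lᵒᵈ (OrderDual.toDual x)) : Back L x := by
  obtain ⟨h, hmono, hsurj⟩ := hx
  refine ⟨fun y => OrderDual.ofDual (h ⟨OrderDual.toDual y.1, fun he => y.2 he⟩), ?_, ?_⟩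
  · intro y z hyz
    exact hmono (show (⟨OrderDual.toDual z.1, fun he => z.2 he⟩ :
      {y : Lᵒᵈ // y ≠ OrderDual.toDual x}) ≤ ⟨OrderDual.toDual y.1, fun he => y.2 he⟩ from hyz)
  · intro w
    obtain ⟨y, hy⟩ := hsurj (OrderDual.toDual w)
    exact ⟨⟨OrderDual.ofDual y.1, fun he => y.2 he⟩, hy⟩

/-- The same below `x`. -/
theorem back_of_infinite' (x : L) (hinf : {y : L | y < x ∧ (Icc y x).Finite}.Infinite) :
    Back L x := by
  refine back_of_dual (back_of_infinite (L := Lᵒᵈ) (OrderDual.toDual x) ?_)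
  refine hinf.mono (fun y hy => ⟨hy.1, ?_⟩)
  exact hy.2.subset fun z hz => ⟨hz.2, hz.1⟩

/-- The main case: `x` lies in a finite block. -/
theorem back_of_block (hL : StronglySurjective L) [Infinite L] (x : L)
    (h1 : {y : L | x < y ∧ (Icc x y).Finite}.Finite)
    (h2 : {y : L | y < x ∧ (Icc y x).Finite}.Finite) : Back L x := by
  classical
  set C : Set L := {y : L | (x ≤ y ∧ (Icc x y).Finite) ∨ (y ≤ x ∧ (Icc y x).Finite)} with hC
  have hxC : x ∈ C := Or.inl ⟨le_rfl, by simp⟩
  have hCfin : C.Finite := by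
    refine ((h1.union h2).union (finite_singleton x)).subset ?_
    rintro y (⟨hy, hf⟩ | ⟨hy, hf⟩)
    · rcases hy.eq_or_lt with he | hlt
      · exact Or.inr he.symm
      · exact Or.inl (Or.inl ⟨hlt, hf⟩)
    · rcases hy.eq_or_lt with he | hlt
      · exact Or.inr he
      · exact Or.inl (Or.inr ⟨hlt, hf⟩)
  obtain ⟨m, hm, hmmin⟩ := hCfin.exists_minimal ⟨x, hxC⟩
  obtain ⟨M, hM, hMmax⟩ := hCfin.exists_maximal ⟨x, hxC⟩
  have hmle : ∀ y ∈ C, m ≤ y := fun y hy => by
    rcases le_total m y with h | h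
    · exact h
    · exact hmmin hy h
  have hMle : ∀ y ∈ C, y ≤ M := fun y hy => by
    rcases le_total y M with h | h
    · exact h
    · exact hMmax hy h
  have hmx : m ≤ x := hmle x hxC
  have hxM : x ≤ M := hMle x hxC
  have hmfin : (Icc m x).Finite := by
    rcases hm with ⟨h, hf⟩ | ⟨h, hf⟩
    · rw [le_antisymm hmx h]; simp
    · exact hf
  have hMfin : (Icc x M).Finite := by
    rcases hM with ⟨h, hf⟩ | ⟨h, hf⟩
    · exact hf
    · rw [le_antisymm hxM h]; simp
  have hconn : ∀ y, m ≤ y → y ≤ M → y ∈ C := by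
    intro y hmy hyM
    rcases le_total x y with h | h
    · exact Or.inl ⟨h, hMfin.subset (Icc_subset_Icc_right hyM)⟩
    · exact Or.inr ⟨h, hmfin.subset (Icc_subset_Icc_left hmy)⟩
  have hout : ∀ y, y ∉ C → y < m ∨ M < y := by
    intro y hy
    by_contra hcon
    push Not at hcon
    exact hy (hconn y hcon.1 hcon.2)
  have hin1 : ∀ y, y < m → y ∈ Cᶜ := fun y hy hyC => absurd (hmle y hyC) (not_le.2 hy)
  have hin2 : ∀ y, M < y → y ∈ Cᶜ := fun y hy hyC => absurd (hMle y hyC) (not_le.2 hy)
  -- no maximum below the block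
  have hnomax : ∀ a, a < m → ∃ b, a < b ∧ b < m := by
    intro a ham
    by_contra hcon
    push Not at hcon
    refine hin1 a ham (Or.inr ⟨ham.le.trans hmx, ?_⟩)
    refine (hmfin.insert a).subset ?_
    rintro z ⟨haz, hzx⟩
    rcases haz.eq_or_lt with he | hlt
    · exact Or.inl he.symm
    · exact Or.inr ⟨hcon z hlt, hzx⟩
  have hnomin : ∀ a, M < a → ∃ b, M < b ∧ b < a := by
    intro a hMa
    by_contra hcon
    push Not at hcon
    refine hin2 a hMa (Or.inl ⟨hxM.trans hMa.le, ?_⟩)
    refine (hMfin.insert a).subset ?_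
    rintro z ⟨hxz, hza⟩
    rcases hza.eq_or_lt with he | hlt
    · exact Or.inl he
    · refine Or.inr ⟨hxz, ?_⟩
      by_contra hMz
      exact absurd (hcon z (not_le.1 hMz)) (not_le.2 hlt)
  have hne : (Cᶜ : Set L).Nonempty := hCfin.infinite_compl.nonempty
  obtain ⟨f, hf, hfs⟩ := hL Cᶜ hne
  have hmM : m ≤ M := hmx.trans hxM
  have hfm : (f m : L) < m ∨ M < (f m : L) := hout _ (f m).2
  have hfM : (f M : L) < m ∨ M < (f M : L) := hout _ (f M).2
  have hfmono : ∀ y z, y ≤ z → (f y : L) ≤ (f z : L) := fun y z hyz => hf hyz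
  have hflt : ∀ y z, (f y : L) < (f z : L) → y < z := fun y z hyz => by
    by_contra hcon
    exact absurd (hfmono z y (not_lt.1 hcon)) (not_le.2 hyz)
  rcases hfm with hfm | hfm
  · rcases hfM with hfM | hfM
    · -- `f M < m`: move the part above the block down
      rw [back_of_finite_Icc _ x M hxM hMfin rfl]
      refine ⟨fun y => if M < y.1 then max (f y.1 : L) M else y.1, ?_, ?_⟩
      · intro y z hyz
        have hyz' : y.1 ≤ z.1 := hyz
        show (if M < y.1 then max (f y.1 : L) M else y.1) ≤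
          (if M < z.1 then max (f z.1 : L) M else z.1)
        by_cases hy : M < y.1 <;> by_cases hz : M < z.1
        · rw [if_pos hy, if_pos hz]
          exact max_le_max_right M (hfmono _ _ hyz')
        · exact absurd (hy.trans_le hyz') hz
        · rw [if_neg hy, if_pos hz]
          exact (not_lt.1 hy).trans (le_max_right _ _)
        · rw [if_neg hy, if_neg hz]
          exact hyz'
      · intro w
        rcases lt_trichotomy w M with hw | hw | hw
        · refine ⟨⟨w, hw.ne⟩, ?_⟩
          show (if M < w then max (f w : L) M else w) = w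
          rw [if_neg hw.not_gt]
        · obtain ⟨b, hb1, hb2⟩ := hnomax _ hfM
          obtain ⟨v, hv⟩ := hfs ⟨b, hin1 b hb2⟩
          have hv' : (f v : L) = b := congrArg Subtype.val hv
          have hMv : M < v := hflt M v (by rw [hv']; exact hb1)
          refine ⟨⟨v, hMv.ne'⟩, ?_⟩
          show (if M < v then max (f v : L) M else v) = w
          rw [if_pos hMv, hv', hw, max_eq_right (hb2.le.trans hmM)]
        · obtain ⟨v, hv⟩ := hfs ⟨w, hin2 w hw⟩
          have hv' : (f v : L) = w := congrArg Subtype.val hv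
          have hMv : M < v := hflt M v (by rw [hv']; exact (hfM.trans_le hmM).trans hw)
          refine ⟨⟨v, hMv.ne'⟩, ?_⟩
          show (if M < v then max (f v : L) M else v) = w
          rw [if_pos hMv, hv', max_eq_left hw.le]
    · -- `f m < m` and `M < f M`: impossible
      exfalso
      have hsub : {z : L | (f m : L) < z ∧ z < m} ⊆ (fun v => (f v : L)) '' C := by
        rintro z ⟨hz1, hz2⟩
        obtain ⟨v, hv⟩ := hfs ⟨z, hin1 z hz2⟩
        have hv' : (f v : L) = z := congrArg Subtype.val hv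
        have hmv : m < v := hflt m v (by rw [hv']; exact hz1)
        have hvM : v < M := hflt v M (by rw [hv']; exact hz2.trans_le (hmM.trans hfM.le))
        exact ⟨v, hconn v hmv.le hvM.le, hv'⟩
      have hfin : {z : L | (f m : L) < z ∧ z < m}.Finite := (hCfin.image _).subset hsub
      obtain ⟨b, hb1, hb2⟩ := hnomax _ hfm
      obtain ⟨z, hz, hzmax⟩ := hfin.exists_maximal ⟨b, hb1, hb2⟩
      obtain ⟨c, hc1, hc2⟩ := hnomax z hz.2
      exact absurd (hzmax ⟨hz.1.trans hc1, hc2⟩ hc1.le) (not_le.2 hc1)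
  · -- `M < f m`: move the part below the block up
    rw [← back_of_finite_Icc _ m x hmx hmfin rfl]
    refine ⟨fun y => if y.1 < m then min (f y.1 : L) m else y.1, ?_, ?_⟩
    · intro y z hyz
      have hyz' : y.1 ≤ z.1 := hyz
      show (if y.1 < m then min (f y.1 : L) m else y.1) ≤
        (if z.1 < m then min (f z.1 : L) m else z.1)
      by_cases hy : y.1 < m <;> by_cases hz : z.1 < m
      · rw [if_pos hy, if_pos hz]
        exact min_le_min_right m (hfmono _ _ hyz')
      · rw [if_pos hy, if_neg hz]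
        exact (min_le_right _ _).trans (not_lt.1 hz)
      · exact absurd (hyz'.trans_lt hz) hy
      · rw [if_neg hy, if_neg hz]
        exact hyz'
    · intro w
      rcases lt_trichotomy w m with hw | hw | hw
      · obtain ⟨v, hv⟩ := hfs ⟨w, hin1 w hw⟩
        have hv' : (f v : L) = w := congrArg Subtype.val hv
        have hvm : v < m := hflt v m (by rw [hv']; exact hw.trans (hmM.trans_lt hfm))
        refine ⟨⟨v, hvm.ne⟩, ?_⟩
        show (if v < m then min (f v : L) m else v) = w
        rw [if_pos hvm, hv', min_eq_left hw.le]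
      · obtain ⟨b, hb1, hb2⟩ := hnomin _ hfm
        obtain ⟨v, hv⟩ := hfs ⟨b, hin2 b hb1⟩
        have hv' : (f v : L) = b := congrArg Subtype.val hv
        have hvm : v < m := hflt v m (by rw [hv']; exact hb2)
        refine ⟨⟨v, hvm.ne⟩, ?_⟩
        show (if v < m then min (f v : L) m else v) = w
        rw [if_pos hvm, hv', hw, min_eq_right (hmM.trans hb1.le)]
      · refine ⟨⟨w, hw.ne'⟩, ?_⟩
        show (if w < m then min (f w : L) m else w) = w
        rw [if_neg hw.not_gt]

/-- If `L` is a strongly surjective linear order and `x` is a point of `L`, then `L` without `x` is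
strongly surjective. -/
theorem result (L : Type u) [LinearOrder L] (hL : StronglySurjective L) (x : L) :
    StronglySurjective {y : L // y ≠ x} := by
  rcases finite_or_infinite L with hfin | hinf
  · intro K hK
    exact retract_finite (Set.toFinite K) hK
  · refine of_back hL ?_
    by_cases h1 : {y : L | x < y ∧ (Icc x y).Finite}.Finite
    · by_cases h2 : {y : L | y < x ∧ (Icc y x).Finite}.Finite
      · exact back_of_block hL x h1 h2
      · exact back_of_infinite' x h2
    · exact back_of_infinite x h1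

end Pool.Agent.Results.MP_6d87e8_lc.DeletePoint
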